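import Pool.Agent.Helper7.NW.TTW

/-!
# Project NW, packet CRX: the shift
-/

set_option autoImplicit false

namespace Pool.Agent.Helper7.NW

open Pool.Agent.Helper52.Wq2 Pool.Agent.Helper61.NW

universe u

variable {Γ : Type u} [Group Γ] {S : Set Γ} {h : Γ → ℤ} {s : Γ} {H n m : ℕ}

/-- A crossing between two lines. -/
def XR (S : Set Γ) (h : Γ → ℤ) (s : Γ) (H : ℕ) (u v : Γ ⧸ Subgroup.zpowers s) : Prop :=
  ∃ a b : Γ, (a : Γ ⧸ Subgroup.zpowers s) = u ∧ (b : Γ ⧸ Subgroup.zpowers s) = v ∧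
    h b = h a + H ∧ a⁻¹ * b ∈ S ∧ (a * s)⁻¹ * (b * s⁻¹) ∈ S

theorem coe_mul_s (a : Γ) : ((a * s : Γ) : Γ ⧸ Subgroup.zpowers s) = (a : Γ ⧸ Subgroup.zpowers s) := by
  rw [QuotientGroup.eq]
  exact ⟨-1, by simp⟩

theorem coe_mul_s_inv (a : Γ) :
    ((a * s⁻¹ : Γ) : Γ ⧸ Subgroup.zpowers s) = (a : Γ ⧸ Subgroup.zpowers s) := by
  rw [QuotientGroup.eq]
  exact ⟨1, by simp⟩

theorem h_inv (T : Two S h s H n m) (a : Γ) : h a⁻¹ = - h a := by
  have h1 := T.hom a a⁻¹
  have h2 := T.hom 1 1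
  rw [mul_one] at h2
  rw [mul_inv_cancel] at h1
  omega

theorem XR.symm (T : Two S h s H n m) {u v : Γ ⧸ Subgroup.zpowers s} (hx : XR S h s H u v) :
    XR S h s H v u := by
  obtain ⟨a, b, rfl, rfl, h1, h2, h3⟩ := hx
  refine ⟨b * s⁻¹, a * s, coe_mul_s_inv b, coe_mul_s a, ?_, ?_, ?_⟩
  · rw [T.hom, T.hom, h_inv T, T.Hs]
    omega
  · have := T.gen.2.1 _ h3
    simpa [mul_assoc] using this
  · have := T.gen.2.1 _ h2
    simpa [mul_assoc] using this

theorem XR.smul (T : Two S h s H n m) (x : Γ) {u v : Γ ⧸ Subgroup.zpowers s}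
    (hx : XR S h s H u v) : XR S h s H (x • u) (x • v) := by
  obtain ⟨a, b, rfl, rfl, h1, h2, h3⟩ := hx
  refine ⟨x * a, x * b, rfl, rfl, ?_, ?_, ?_⟩
  · rw [T.hom, T.hom]
    omega
  · have e1 : (x * a)⁻¹ * (x * b) = a⁻¹ * b := by group
    rwa [e1]
  · have e1 : (x * a * s)⁻¹ * (x * b * s⁻¹) = (a * s)⁻¹ * (b * s⁻¹) := by group
    rwa [e1]

theorem crs_iff (e : (Γ ⧸ Subgroup.zpowers s) ≃ ZMod n) (j : ZMod n) :
    Crs S h s H n e j ↔ XR S h s H (e.symm j) (e.symm (j + 1)) := by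
  unfold Crs XR
  constructor
  · rintro ⟨a, b, h1, h2, h3⟩
    exact ⟨a, b, by rw [← h1, Equiv.symm_apply_apply], by rw [← h2, Equiv.symm_apply_apply], h3⟩
  · rintro ⟨a, b, h1, h2, h3⟩
    exact ⟨a, b, by rw [h1, Equiv.apply_symm_apply], by rw [h2, Equiv.apply_symm_apply], h3⟩

/-- The neighbours of a line after a left multiplication. -/
theorem nb (e : (Γ ⧸ Subgroup.zpowers s) ≃ ZMod n) (he : IsCyc S s n e) (x : Γ)
    {j k : ZMod n} (hx : x • e.symm j = e.symm k) :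
    (x • e.symm (j + 1) = e.symm (k + 1) ∨ x • e.symm (j + 1) = e.symm (k - 1)) ∧
    (x • e.symm (j - 1) = e.symm (k + 1) ∨ x • e.symm (j - 1) = e.symm (k - 1)) := by
  have key : ∀ i : ZMod n, (i = j + 1 ∨ i = j - 1) →
      (x • e.symm i = e.symm (k + 1) ∨ x • e.symm i = e.symm (k - 1)) := by
    intro i hi
    have h1 : (Ln S s).Adj (e.symm j) (e.symm i) := by
      rw [he, Equiv.apply_symm_apply, Equiv.apply_symm_apply]
      rcases hi with rfl | rfl
      · exact Or.inl rfl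
      · exact Or.inr (by ring)
    have h2 := ln_smul x _ _ h1
    rw [hx, he, Equiv.apply_symm_apply] at h2
    rcases h2 with h2 | h2
    · exact Or.inl (by rw [← h2, Equiv.symm_apply_apply])
    · right
      rw [h2, add_sub_cancel_right, Equiv.symm_apply_apply]
  exact ⟨key _ (Or.inl rfl), key _ (Or.inr rfl)⟩

/-- The gaps at all lines look the same. -/
theorem gaps (T : Two S h s H n m) (hn : 3 ≤ n) (e : (Γ ⧸ Subgroup.zpowers s) ≃ ZMod n)
    (he : IsCyc S s n e) (j k : ZMod n) :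
    (XR S h s H (e.symm j) (e.symm (j + 1)) ∨ XR S h s H (e.symm j) (e.symm (j - 1)) →
      XR S h s H (e.symm k) (e.symm (k + 1)) ∨ XR S h s H (e.symm k) (e.symm (k - 1))) ∧
    (XR S h s H (e.symm j) (e.symm (j + 1)) ∧ XR S h s H (e.symm j) (e.symm (j - 1)) →
      XR S h s H (e.symm k) (e.symm (k + 1)) ∧ XR S h s H (e.symm k) (e.symm (k - 1))) := by
  obtain ⟨f, hf⟩ : ∃ x : Γ, x • e.symm j = e.symm k := by
    obtain ⟨a, ha⟩ := QuotientGroup.mk_surjective (e.symm j)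
    obtain ⟨b, hb⟩ := QuotientGroup.mk_surjective (e.symm k)
    refine ⟨b * a⁻¹, ?_⟩
    rw [← ha, ← hb]
    change (b * a⁻¹) • ((a : Γ) : Γ ⧸ Subgroup.zpowers s) = (b : Γ ⧸ Subgroup.zpowers s)
    rw [MulAction.Quotient.smul_coe, smul_eq_mul, inv_mul_cancel_right]
  obtain ⟨h1, h2⟩ := nb e he f hf
  have h20 : (2 : ZMod n) ≠ 0 := by
    intro h0
    have h3 : ((2 : ℕ) : ZMod n) = 0 := by exact_mod_cast h0
    rw [ZMod.natCast_eq_zero_iff] at h3
    have := Nat.le_of_dvd (by norm_num) h3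
    omega
  have hne : f • e.symm (j + 1) ≠ f • e.symm (j - 1) := by
    intro h0
    have h3 := e.symm.injective (MulAction.injective f h0)
    apply h20
    have h4 : (2 : ZMod n) = (j + 1) - (j - 1) := by ring
    rw [h4, h3, sub_self]
  constructor
  · rintro (hx | hx)
    · have h3 := XR.smul T f hx
      rw [hf] at h3
      rcases h1 with h1 | h1
      · rw [h1] at h3; exact Or.inl h3
      · rw [h1] at h3; exact Or.inr h3
    · have h3 := XR.smul T f hx
      rw [hf] at h3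
      rcases h2 with h2 | h2
      · rw [h2] at h3; exact Or.inl h3
      · rw [h2] at h3; exact Or.inr h3
  · rintro ⟨hx, hy⟩
    have h3 := XR.smul T f hx
    have h4 := XR.smul T f hy
    rw [hf] at h3 h4
    rcases h1 with h1 | h1 <;> rcases h2 with h2 | h2
    · exact absurd (h1.trans h2.symm) hne
    · rw [h1] at h3; rw [h2] at h4; exact ⟨h3, h4⟩
    · rw [h1] at h3; rw [h2] at h4; exact ⟨h4, h3⟩
    · exact absurd (h1.trans h2.symm) hne

/-- The gaps with crossings contain an arithmetic progression with difference two. -/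
theorem crs_shift (T : Two S h s H n m) (hn : 3 ≤ n) (e : (Γ ⧸ Subgroup.zpowers s) ≃ ZMod n)
    (he : IsCyc S s n e) (hc : ∃ j, Crs S h s H n e j) :
    ∃ j0 : ZMod n, ∀ i : ℕ, Crs S h s H n e (j0 + 2 * i) := by
  obtain ⟨j, hj⟩ := hc
  have some1 : ∀ k, XR S h s H (e.symm k) (e.symm (k + 1)) ∨
      XR S h s H (e.symm k) (e.symm (k - 1)) := fun k =>
    (gaps T hn e he j k).1 (Or.inl ((crs_iff e j).1 hj))
  by_cases hall : ∀ k, Crs S h s H n e k
  · exact ⟨j, fun i => hall _⟩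
  push Not at hall
  obtain ⟨k, hk⟩ := hall
  have nboth : ∀ l, ¬ (XR S h s H (e.symm l) (e.symm (l + 1)) ∧
      XR S h s H (e.symm l) (e.symm (l - 1))) := by
    intro l hl
    exact hk ((crs_iff e k).2 ((gaps T hn e he l k).2 hl).1)
  refine ⟨j, fun i => ?_⟩
  induction i with
  | zero => simpa using hj
  | succ i ih =>
    set l : ZMod n := j + 2 * (i : ZMod n) with hl
    have e1 : j + 2 * ((i + 1 : ℕ) : ZMod n) = l + 2 := by rw [hl]; push_cast; ring
    rw [e1]
    have h1 : ¬ XR S h s H (e.symm (l + 1)) (e.symm (l + 1 + 1)) := by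
      intro h2
      refine nboth (l + 1) ⟨h2, ?_⟩
      rw [add_sub_cancel_right]
      exact ((crs_iff e l).1 ih).symm T
    have h3 : XR S h s H (e.symm (l + 2)) (e.symm (l + 2 + 1)) := by
      rcases some1 (l + 2) with h4 | h4
      · exact h4
      · exfalso
        apply h1
        have e2 : l + 2 - 1 = l + 1 := by ring
        have e3 : l + 2 = l + 1 + 1 := by ring
        rw [e2, e3] at h4
        exact h4.symm T
    exact (crs_iff e (l + 2)).2 h3

end Pool.Agent.Helper7.NW
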