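import Pool.Agent.Helper61.NW.Goals

/-!
# Project NW, packet TTW
-/

set_option autoImplicit false

namespace Pool.Agent.Helper7.NW

open Pool.Agent.Helper52.Wq2 Pool.Agent.Helper61.NW
open scoped Nat

universe u

variable {Γ : Type u} [Group Γ] {S : Set Γ} {s : Γ}

theorem ln_adj (A B : Γ ⧸ Subgroup.zpowers s) : (Ln S s).Adj A B ↔ A ≠ B ∧
    ((∃ g t : Γ, t ∈ S ∧ (g : Γ ⧸ Subgroup.zpowers s) = A ∧
      ((g * t : Γ) : Γ ⧸ Subgroup.zpowers s) = B) ∨
    (∃ g t : Γ, t ∈ S ∧ (g : Γ ⧸ Subgroup.zpowers s) = B ∧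
      ((g * t : Γ) : Γ ⧸ Subgroup.zpowers s) = A)) := by
  unfold Ln
  rw [SimpleGraph.fromRel_adj]

/-- The graph of the lines is connected. -/
theorem ln_conn (hS : IsGen S) : Conn (Ln S s) Set.univ := by
  refine ⟨⟨((1 : Γ) : Γ ⧸ Subgroup.zpowers s), trivial⟩, ?_⟩
  intro A _ hne hcl
  have h1 : ∀ t ∈ S, ∀ g : Γ, (g : Γ ⧸ Subgroup.zpowers s) ∈ A →
      ((g * t : Γ) : Γ ⧸ Subgroup.zpowers s) ∈ A := by
    intro t ht g hg
    by_cases he : (g : Γ ⧸ Subgroup.zpowers s) = ((g * t : Γ) : Γ ⧸ Subgroup.zpowers s)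
    · rwa [← he]
    · exact hcl _ hg _ trivial ((ln_adj _ _).2 ⟨he, Or.inl ⟨g, t, ht, rfl, rfl⟩⟩)
  have h2 : ∀ y : Γ, y ∈ Subgroup.closure S → ∀ g : Γ, (g : Γ ⧸ Subgroup.zpowers s) ∈ A ↔
      ((g * y : Γ) : Γ ⧸ Subgroup.zpowers s) ∈ A := by
    intro y hy
    induction hy using Subgroup.closure_induction with
    | mem t ht =>
      intro g
      refine ⟨h1 t ht g, fun h => ?_⟩
      have := h1 t⁻¹ (hS.2.1 t ht) _ h
      rwa [mul_inv_cancel_right] at this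
    | one => intro g; rw [mul_one]
    | mul x y _ _ hx hy => intro g; rw [hx g, hy (g * x), mul_assoc]
    | inv x _ hx => intro g; rw [hx (g * x⁻¹), inv_mul_cancel_right]
  obtain ⟨a, ha⟩ := hne
  obtain ⟨g, rfl⟩ := QuotientGroup.mk_surjective a
  intro b _
  obtain ⟨x, rfl⟩ := QuotientGroup.mk_surjective b
  have h3 := (h2 (g⁻¹ * x) (by rw [hS.1]; trivial) g).1 ha
  rwa [mul_inv_cancel_left] at h3

/-- Left multiplication. -/
theorem ln_smul (x : Γ) (A B : Γ ⧸ Subgroup.zpowers s) (h : (Ln S s).Adj A B) :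
    (Ln S s).Adj (x • A) (x • B) := by
  rw [ln_adj] at h ⊢
  refine ⟨fun he => h.1 (MulAction.injective x he), ?_⟩
  rcases h.2 with ⟨g, t, ht, rfl, rfl⟩ | ⟨g, t, ht, rfl, rfl⟩
  · exact Or.inl ⟨x * g, t, ht, rfl, by rw [mul_assoc]; rfl⟩
  · exact Or.inr ⟨x * g, t, ht, rfl, by rw [mul_assoc]; rfl⟩

/-- Left multiplication as an automorphism. -/
def ln_iso (S : Set Γ) (s x : Γ) : Ln S s ≃g Ln S s where
  toEquiv := MulAction.toPerm x
  map_rel_iff' := by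
    intro A B
    change (Ln S s).Adj (x • A) (x • B) ↔ (Ln S s).Adj A B
    refine ⟨fun h => ?_, ln_smul x A B⟩
    have := ln_smul x⁻¹ _ _ h
    rwa [inv_smul_smul, inv_smul_smul] at this

theorem ln_trans (u v : Γ ⧸ Subgroup.zpowers s) : ∃ e : Ln S s ≃g Ln S s, e u = v := by
  obtain ⟨a, rfl⟩ := QuotientGroup.mk_surjective u
  obtain ⟨b, rfl⟩ := QuotientGroup.mk_surjective v
  refine ⟨ln_iso S s (b * a⁻¹), ?_⟩
  change (b * a⁻¹) • ((a : Γ) : Γ ⧸ Subgroup.zpowers s) = (b : Γ ⧸ Subgroup.zpowers s)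
  rw [MulAction.Quotient.smul_coe, smul_eq_mul, inv_mul_cancel_right]

theorem deg_eq {V : Type u} {L : SimpleGraph V} (e : L ≃g L) (u : V) :
    (L.neighborSet (e u)).ncard = (L.neighborSet u).ncard :=
  (Nat.card_congr (e.mapNeighborSet u)).symm

theorem ttw (hPer : PerStmt.{u}) (hStl : StlStmt.{u}) (hDeg : DegStmt.{u}) (hCyc : CycStmt.{u})
    (hCyn : CynStmt.{u}) (hCrx : CrxStmt.{u}) (hNcr : NcrStmt.{u}) : TtwStmt.{u} := by
  intro Γ _ S h s H n m hT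
  refine ⟨hPer Γ S h s H n m hT, ?_⟩
  intro p hp
  have hfin : Finite (Γ ⧸ Subgroup.zpowers s) := by
    refine Nat.finite_of_card_ne_zero ?_
    rw [hT.card]
    exact hT.npos.ne'
  by_cases hd : ∀ v, 3 ≤ ((Ln S s).neighborSet v).ncard
  · left
    obtain ⟨C, B, h1, h2, h3, h4⟩ := hDeg (Γ ⧸ Subgroup.zpowers s) (Ln S s) (ln_conn hT.gen) hd
      (2 * p) (by
        rw [hT.card]
        have e1 : 4 * (2 * p) + 6 = 8 * p + 6 := by ring
        rw [e1]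
        omega)
    exact (pk_of_starZ p).trans (hStl Γ S h s H n m hT (2 * p) C B h1 h2 h3 h4)
  · push Not at hd
    obtain ⟨v₀, hv₀⟩ := hd
    have hd2 : ∀ v, ((Ln S s).neighborSet v).ncard ≤ 2 := by
      intro v
      obtain ⟨e, he⟩ := ln_trans (S := S) v₀ v
      rw [← he, deg_eq e v₀]
      omega
    have hn3 : 3 ≤ n := by omega
    obtain ⟨e, he⟩ := hCyc (Γ ⧸ Subgroup.zpowers s) (Ln S s) (ln_conn hT.gen) hd2
      (fun u v => ln_trans u v) n hn3 hT.card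
    by_cases hc : ∃ j, Crs S h s H n e j
    · left
      refine (pk_of_starZ p).trans (hCrx Γ S h s H n m hT hn3 e he hc (2 * p) ?_)
      have h1 : 8 * p + 6 < (2 * p + 3) ^ (8 * p + 6) := Nat.lt_pow_self (by omega)
      omega
    · push Not at hc
      right
      exact ⟨hCyn Γ S h s H n m hT hn3 e he, hNcr Γ S h s H n m hT hn3 e he hc⟩

end Pool.Agent.Helper7.NW
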