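import Pool.Agent.Helper61.NW.Goals2
import Pool.Agent.Helper7.NW.TTW

/-!
# Project NW+, packet LTT
-/

set_option autoImplicit false

namespace Pool.Agent.Helper7.NW

open Pool.Agent.Helper52.Wq2 Pool.Agent.Helper61.NW
open scoped Nat

theorem lg_adj {n : ℕ} (G : SimpleGraph (ℤ × Fin n)) (i j : Fin n) : (Lg G).Adj i j ↔ i ≠ j ∧
    ∃ a b : ℤ, G.Adj (a, i) (b, j) := by
  unfold Lg
  rw [SimpleGraph.fromRel_adj]
  constructor
  · rintro ⟨h1, ⟨a, b, h⟩ | ⟨a, b, h⟩⟩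
    · exact ⟨h1, a, b, h⟩
    · exact ⟨h1, b, a, h.symm⟩
  · rintro ⟨h1, h⟩
    exact ⟨h1, Or.inl h⟩

/-- The graph of the lines is connected. -/
theorem lg_conn {n m : ℕ} {G : SimpleGraph (ℤ × Fin n)} (hL : Lsys n m G) :
    Conn (Lg G) Set.univ := by
  refine ⟨⟨⟨0, hL.npos⟩, trivial⟩, ?_⟩
  intro A _ hne hcl
  obtain ⟨i₀, hi₀⟩ := hne
  have h1 := hL.conn.2 {v | v.2 ∈ A} (Set.subset_univ _) ⟨(0, i₀), hi₀⟩ (by
    rintro ⟨a, i⟩ hi ⟨b, j⟩ _ hab
    change j ∈ A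
    have hi' : i ∈ A := hi
    by_cases hij : i = j
    · rwa [← hij]
    · exact hcl i hi' j trivial ((lg_adj G i j).2 ⟨hij, a, b, hab⟩))
  intro i _
  exact h1 (show ((0 : ℤ), i) ∈ Set.univ from trivial)

theorem lg_trans {n m : ℕ} {G : SimpleGraph (ℤ × Fin n)} (hL : Lsys n m G) (u v : Fin n) :
    ∃ e : Lg G ≃g Lg G, e u = v := by
  obtain ⟨f, τ, e, c, he, huv, hf⟩ := hL.trans u v
  have hee : e * e = 1 := by
    rcases he with rfl | rfl <;> norm_num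
  refine ⟨{ toEquiv := τ, map_rel_iff' := ?_ }, huv⟩
  intro i j
  change (Lg G).Adj (τ i) (τ j) ↔ (Lg G).Adj i j
  rw [lg_adj, lg_adj]
  constructor
  · rintro ⟨h1, a, b, h2⟩
    refine ⟨fun h => h1 (by rw [h]), e * (a - c i), e * (b - c j), ?_⟩
    rw [← f.map_rel_iff]
    have e1 : f (e * (a - c i), i) = (a, τ i) := by
      rw [hf, ← mul_assoc, hee, one_mul, sub_add_cancel]
    have e2 : f (e * (b - c j), j) = (b, τ j) := by
      rw [hf, ← mul_assoc, hee, one_mul, sub_add_cancel]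
    rw [e1, e2]
    exact h2
  · rintro ⟨h1, a, b, h2⟩
    refine ⟨fun h => h1 (τ.injective h), e * a + c i, e * b + c j, ?_⟩
    rw [← hf, ← hf, f.map_rel_iff]
    exact h2

/-- **LTT.** -/
theorem ltt (hLpr : LprStmt) (hLst : LstStmt) (hDeg : DegStmt.{0}) (hCyc : CycStmt.{0})
    (hLcn : LcnStmt) (hLcx : LcxStmt) (hLnc : LncStmt) : LttStmt := by
  intro n m G hL hm
  refine ⟨⟨n * m, Nat.mul_le_mul_left n hm, hLpr n m G hL⟩, ?_⟩
  intro p hp
  by_cases hd : ∀ v, 3 ≤ ((Lg G).neighborSet v).ncard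
  · left
    obtain ⟨C, B, h1, h2, h3, h4⟩ := hDeg (Fin n) (Lg G) (lg_conn hL) hd (2 * p) (by
      rw [Nat.card_fin]
      have e1 : 4 * (2 * p) + 6 = 8 * p + 6 := by ring
      rw [e1]
      omega)
    exact (pk_of_starZ p).trans (hLst n m G hL (2 * p) C B h1 h2 h3 h4)
  · push Not at hd
    obtain ⟨v₀, hv₀⟩ := hd
    have hd2 : ∀ v, ((Lg G).neighborSet v).ncard ≤ 2 := by
      intro v
      obtain ⟨e, he⟩ := lg_trans hL v₀ v
      rw [← he, deg_eq e v₀]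
      omega
    have hn3 : 3 ≤ n := by omega
    obtain ⟨e, he⟩ := hCyc (Fin n) (Lg G) (lg_conn hL) hd2 (fun u v => lg_trans hL u v) n hn3
      (Nat.card_fin n)
    by_cases hc : ∃ j, LCrs G e j
    · left
      refine (pk_of_starZ p).trans (hLcx n m G hL hn3 e he hc (2 * p) ?_)
      have h1 : 8 * p + 6 < (2 * p + 3) ^ (8 * p + 6) := Nat.lt_pow_self (by omega)
      omega
    · push Not at hc
      right
      exact ⟨hLcn n m G hL hn3 e he, hLnc n m G hL hn3 e he hc⟩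

end Pool.Agent.Helper7.NW
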